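import Mathlib

/-!
# PSD propagation times of minimum PSD zero forcing sets do not form an interval

For every `g` there is a graph `G` such that `3 + 1, ..., 3 + g` are not propagation times of
minimum positive semidefinite zero forcing sets of `G`, although smaller and larger values occur.
-/

namespace Pool.Agent.Results.MP_bfe17a_co.ArbitraryGaps

/-! ### Definitions -/

section defs

variable {V : Type}

/-- `w'` lies in the connected component of `w` in `G - B`. -/
def SameComp (G : SimpleGraph V) (B : Set V) : V → V → Prop :=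
  Relation.ReflTransGen (fun a b => G.Adj a b ∧ a ∉ B ∧ b ∉ B)

/-- The PSD colour change rule: if `B` is the set of blue vertices, the blue vertex `u` may force
the white vertex `w`, i.e. `w` is the only white neighbour of `u` in the component of `w` in
`G - B`. -/
def Force (G : SimpleGraph V) (B : Set V) (u w : V) : Prop :=
  u ∈ B ∧ w ∉ B ∧ G.Adj u w ∧ ∀ w', w' ∉ B → G.Adj u w' → SameComp G B w w' → w' = w

/-- All forces which are possible are performed simultaneously. -/
def step (G : SimpleGraph V) (B : Set V) : Set V := {w | w ∈ B ∨ ∃ u, Force G B u w}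

/-- The blue set after `t` steps from the blue set `S`. -/
def after (G : SimpleGraph V) (S : Set V) : ℕ → Set V
  | 0 => S
  | t + 1 => step G (after G S t)

/-- `S` is a PSD zero forcing set. -/
def IsPSD (G : SimpleGraph V) (S : Set V) : Prop := ∃ t, after G S t = Set.univ

/-- `S` is a PSD zero forcing set of minimum size. -/
def IsMinPSD (G : SimpleGraph V) (S : Set V) : Prop :=
  IsPSD G S ∧ ∀ S', IsPSD G S' → S.ncard ≤ S'.ncard

/-- The propagation time of `S`. -/
noncomputable def pt (G : SimpleGraph V) (S : Set V) : ℕ := sInf {t | after G S t = Set.univ}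

end defs

/-! ### General facts -/

section general

variable {V : Type} {G : SimpleGraph V}

theorem same_mono {B B' : Set V} (h : B ⊆ B') {w w' : V} (h1 : SameComp G B' w w') :
    SameComp G B w w' := by
  refine Relation.ReflTransGen.mono (fun a b hab => ?_) _ _ h1
  obtain ⟨h2, h3, h4⟩ := hab
  exact ⟨h2, fun h5 => h3 (h h5), fun h5 => h4 (h h5)⟩

theorem step_mono {B B' : Set V} (h : B ⊆ B') : step G B ⊆ step G B' := by
  rintro w (hw | ⟨u, h1, h2, h3, h4⟩)
  · exact Or.inl (h hw)
  · by_cases hw : w ∈ B'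
    · exact Or.inl hw
    · exact Or.inr ⟨u, h h1, hw, h3, fun w' h5 h6 h7 => h4 w' (fun h8 => h5 (h h8)) h6
        (same_mono h h7)⟩

theorem sub_step {B : Set V} : B ⊆ step G B := fun _ h => Or.inl h

theorem after_le {S : Set V} (Y : ℕ → Set V) (h0 : S ⊆ Y 0) (h1 : ∀ t, step G (Y t) ⊆ Y (t + 1))
    (t : ℕ) : after G S t ⊆ Y t := by
  induction t with
  | zero => exact h0
  | succ t ih => exact (step_mono ih).trans (h1 t)

theorem stall {S Z : Set V} (h0 : S ⊆ Z) (h1 : step G Z ⊆ Z) (hZ : Z ≠ Set.univ) :
    ¬ IsPSD G S := by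
  rintro ⟨t, ht⟩
  apply hZ
  rw [Set.eq_univ_iff_forall]
  intro v
  have := after_le (G := G) (fun _ => Z) h0 (fun _ => h1) t
  exact this (by rw [ht]; trivial)

theorem one {B : Set V} {a b : V} (h : G.Adj a b) (ha : a ∉ B) (hb : b ∉ B) : SameComp G B a b :=
  Relation.ReflTransGen.single ⟨h, ha, hb⟩

theorem two {B : Set V} {a b c : V} (h : G.Adj a b) (h' : G.Adj b c) (ha : a ∉ B) (hb : b ∉ B)
    (hc : c ∉ B) : SameComp G B a c :=
  (one h ha hb).trans (one h' hb hc)

theorem isolated {B : Set V} {w w' : V} (h : ∀ x, G.Adj w x → x ∈ B) (h1 : SameComp G B w w') :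
    w' = w := by
  rcases Relation.ReflTransGen.cases_head h1 with h2 | ⟨c, ⟨h2, _, h4⟩, _⟩
  · exact h2.symm
  · exact absurd (h c h2) h4

theorem pt_le {S : Set V} {t : ℕ} (h : after G S t = Set.univ) : pt G S ≤ t := Nat.sInf_le h

theorem pt_mem {S : Set V} (h : IsPSD G S) : after G S (pt G S) = Set.univ :=
  Nat.sInf_mem (s := {t | after G S t = Set.univ}) h

end general

/-! ### The graphs -/

/-- The graph `H s`: a path on `0, ..., 3 s` and `2 s - 1` further vertices, pairwise nonadjacent
and joined to all vertices `i` of the path which are not divisible by `3`. -/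
def H (s : ℕ) : SimpleGraph (Fin (3 * s + 1) ⊕ Fin (2 * s - 1)) where
  Adj
    | .inl i, .inl j => i.val + 1 = j.val ∨ j.val + 1 = i.val
    | .inl i, .inr _ => i.val % 3 ≠ 0
    | .inr _, .inl i => i.val % 3 ≠ 0
    | .inr _, .inr _ => False
  symm := ⟨by
    rintro (i | w) (j | w') h
    · exact h.symm
    · exact h
    · exact h
    · exact h⟩
  loopless := ⟨by
    rintro (i | w) h
    · rcases h with h | h <;> omega
    · exact h⟩

section graph

variable {s : ℕ}

theorem adj_ll {i j : Fin (3 * s + 1)} :
    (H s).Adj (.inl i) (.inl j) ↔ (i.val + 1 = j.val ∨ j.val + 1 = i.val) := Iff.rfl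

theorem adj_lr {i : Fin (3 * s + 1)} {t : Fin (2 * s - 1)} :
    (H s).Adj (.inl i) (.inr t) ↔ i.val % 3 ≠ 0 := Iff.rfl

theorem adj_rl {i : Fin (3 * s + 1)} {t : Fin (2 * s - 1)} :
    (H s).Adj (.inr t) (.inl i) ↔ i.val % 3 ≠ 0 := Iff.rfl

theorem adj_rr {t t' : Fin (2 * s - 1)} : ¬ (H s).Adj (.inr t) (.inr t') := fun h => h

/-- All further vertices, and the interval `[lo, hi]` of the path. -/
def Y (s lo hi : ℕ) : Set (Fin (3 * s + 1) ⊕ Fin (2 * s - 1)) :=
  {v | ∀ i, v = .inl i → lo ≤ i.val ∧ i.val ≤ hi}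

theorem mem_Y {lo hi : ℕ} {i : Fin (3 * s + 1)} :
    (.inl i : Fin (3 * s + 1) ⊕ Fin (2 * s - 1)) ∈ Y s lo hi ↔ lo ≤ i.val ∧ i.val ≤ hi := by
  constructor
  · intro h
    exact h i rfl
  · intro h j hj
    cases hj
    exact h

theorem mem_Y' {lo hi : ℕ} {t : Fin (2 * s - 1)} :
    (.inr t : Fin (3 * s + 1) ⊕ Fin (2 * s - 1)) ∈ Y s lo hi := by
  intro i hi
  cases hi

theorem step_Y {lo hi : ℕ} : step (H s) (Y s lo hi) ⊆ Y s (lo - 1) (hi + 1) := by
  rintro (i | t) hw
  · rw [mem_Y]
    rcases hw with hw | ⟨u, h1, h2, h3, h4⟩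
    · rw [mem_Y] at hw
      omega
    · by_contra hcon
      rcases u with j | t
      · rw [mem_Y] at h1
        rw [adj_ll] at h3
        omega
      · rw [adj_rl] at h3
        have hi := i.isLt
        rcases (by omega : i.val % 3 = 1 ∨ i.val % 3 = 2) with h5 | h5
        · have h6 := h4 (.inl ⟨i.val + 1, by omega⟩) (by rw [mem_Y]; simp only; omega)
            (by rw [adj_rl]; simp only; omega) (one (by rw [adj_ll]; simp)
              h2 (by rw [mem_Y]; simp only; omega))
          have := congrArg Fin.val (Sum.inl.inj h6)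
          simp only at this
          omega
        · have h6 := h4 (.inl ⟨i.val - 1, by omega⟩) (by rw [mem_Y]; simp only; omega)
            (by rw [adj_rl]; simp only; omega) (one (by rw [adj_ll]; simp only; omega)
              h2 (by rw [mem_Y]; simp only; omega))
          have := congrArg Fin.val (Sum.inl.inj h6)
          simp only at this
          omega
  · exact mem_Y'

/-- The vertex `i` of the path belongs to `S`. -/
def Sm (S : Set (Fin (3 * s + 1) ⊕ Fin (2 * s - 1))) (i : ℕ) : Prop :=
  ∃ h : i < 3 * s + 1, (.inl ⟨i, h⟩ : Fin (3 * s + 1) ⊕ Fin (2 * s - 1)) ∈ S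

/-- `i` is not divisible by three and belongs to `S` or can be forced by its neighbour divisible by
three at the first step. -/
def F (S : Set (Fin (3 * s + 1) ⊕ Fin (2 * s - 1))) (i : ℕ) : Prop :=
  (i % 3 = 1 ∧ (Sm S i ∨ (Sm S (i - 1) ∧ (i ≠ 1 → Sm S (i - 2))))) ∨
  (i % 3 = 2 ∧ (Sm S i ∨ (Sm S (i + 1) ∧ (i + 2 < 3 * s + 1 → Sm S (i + 2)))))

/-- The bounding set. -/
def Z (S : Set (Fin (3 * s + 1) ⊕ Fin (2 * s - 1))) : Set (Fin (3 * s + 1) ⊕ Fin (2 * s - 1)) :=
  {v | v ∈ S ∨ ∃ i : Fin (3 * s + 1), v = .inl i ∧ (F S i.val ∨ (i.val % 3 = 0 ∧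
    (0 < i.val → F S (i.val - 1)) ∧ (i.val < 3 * s → F S (i.val + 1))))}

theorem sm_iff {S : Set (Fin (3 * s + 1) ⊕ Fin (2 * s - 1))} {i : Fin (3 * s + 1)} :
    Sm S i.val ↔ (.inl i : Fin (3 * s + 1) ⊕ Fin (2 * s - 1)) ∈ S :=
  ⟨fun ⟨_, h⟩ => h, fun h => ⟨i.isLt, h⟩⟩

theorem mem_Zr {S : Set (Fin (3 * s + 1) ⊕ Fin (2 * s - 1))} {t : Fin (2 * s - 1)} :
    (.inr t : Fin (3 * s + 1) ⊕ Fin (2 * s - 1)) ∈ Z S ↔ .inr t ∈ S := by
  constructor
  · rintro (h | ⟨i, h, _⟩)
    · exact h
    · cases h
  · exact Or.inl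

theorem mem_Zl {S : Set (Fin (3 * s + 1) ⊕ Fin (2 * s - 1))} {i : Fin (3 * s + 1)} :
    (.inl i : Fin (3 * s + 1) ⊕ Fin (2 * s - 1)) ∈ Z S ↔ Sm S i.val ∨ F S i.val ∨
      (i.val % 3 = 0 ∧ (0 < i.val → F S (i.val - 1)) ∧ (i.val < 3 * s → F S (i.val + 1))) := by
  rw [sm_iff]
  constructor
  · rintro (h | ⟨j, h, h'⟩)
    · exact Or.inl h
    · cases h
      exact Or.inr h'
  · rintro (h | h)
    · exact Or.inl h
    · exact Or.inr ⟨i, rfl, h⟩

theorem F_of_Sm {S : Set (Fin (3 * s + 1) ⊕ Fin (2 * s - 1))} {i : ℕ} (h : i % 3 ≠ 0)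
    (h' : Sm S i) : F S i := by
  rcases (by omega : i % 3 = 1 ∨ i % 3 = 2) with h1 | h1
  · exact Or.inl ⟨h1, Or.inl h'⟩
  · exact Or.inr ⟨h1, Or.inl h'⟩

theorem not_F_of_mod {S : Set (Fin (3 * s + 1) ⊕ Fin (2 * s - 1))} {i : ℕ} (h : i % 3 = 0) :
    ¬ F S i := by
  rintro (h' | h') <;> omega

/-- mates on the left -/
theorem mate1 {S : Set (Fin (3 * s + 1) ⊕ Fin (2 * s - 1))} {i : ℕ} (h : i % 3 = 1) (_ : i ≠ 1)
    (hi : i < 3 * s + 1) (h2 : ¬ F S i) (h3 : Sm S (i - 1)) : ¬ F S (i - 2) := by
  have hi2 : ¬ Sm S i := fun h' => h2 (F_of_Sm (by omega) h')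
  rintro (⟨h4, _⟩ | ⟨_, h5 | ⟨_, h6⟩⟩)
  · omega
  · exact h2 (Or.inl ⟨h, Or.inr ⟨h3, fun _ => h5⟩⟩)
  · have := h6 (by omega)
    rw [show i - 2 + 2 = i by omega] at this
    exact hi2 this

/-- mates on the right -/
theorem mate2 {S : Set (Fin (3 * s + 1) ⊕ Fin (2 * s - 1))} {i : ℕ} (h : i % 3 = 2)
    (_ : i + 2 < 3 * s + 1) (h2 : ¬ F S i) (h3 : Sm S (i + 1)) : ¬ F S (i + 2) := by
  have hi2 : ¬ Sm S i := fun h' => h2 (F_of_Sm (by omega) h')
  rintro (⟨_, h5 | ⟨_, h6⟩⟩ | ⟨h4, _⟩)
  · exact h2 (Or.inr ⟨h, Or.inr ⟨h3, fun _ => h5⟩⟩)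
  · have := h6 (by omega)
    rw [show i + 2 - 2 = i by omega] at this
    exact hi2 this
  · omega

theorem white {S : Set (Fin (3 * s + 1) ⊕ Fin (2 * s - 1))} {i : Fin (3 * s + 1)}
    (h : i.val % 3 ≠ 0) (h' : ¬ F S i.val) :
    (.inl i : Fin (3 * s + 1) ⊕ Fin (2 * s - 1)) ∉ Z S := by
  rw [mem_Zl]
  rintro (h1 | h1 | ⟨h1, _⟩)
  · exact h' (F_of_Sm h h1)
  · exact h' h1
  · exact h h1

/-- As long as some further vertex `t0` is white, the path part of `Z S` cannot grow, if there is a
second white vertex `i1` of the path not divisible by three whenever it is needed. -/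
theorem no_path {S : Set (Fin (3 * s + 1) ⊕ Fin (2 * s - 1))} {t0 : Fin (2 * s - 1)}
    (ht0 : .inr t0 ∉ S) (h2 : ∀ i : Fin (3 * s + 1), i.val % 3 ≠ 0 → ¬ F S i.val →
      (∃ t : Fin (2 * s - 1), .inr t ∈ S) →
      ∃ j : Fin (3 * s + 1), j ≠ i ∧ j.val % 3 ≠ 0 ∧ ¬ F S j.val)
    {i : Fin (3 * s + 1)} {u : Fin (3 * s + 1) ⊕ Fin (2 * s - 1)} :
    ¬ Force (H s) (Z S) u (.inl i) := by
  rintro ⟨h3, h4, h5, h6⟩
  have ht : (.inr t0 : Fin (3 * s + 1) ⊕ Fin (2 * s - 1)) ∉ Z S := fun h => ht0 (mem_Zr.mp h)
  have hi := i.isLt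
  by_cases hi0 : i.val % 3 = 0
  · -- `i` is divisible by three
    rcases u with j | t
    · rw [adj_ll] at h5
      have hj : j.val % 3 ≠ 0 := by omega
      have hk : ∃ k : Fin (3 * s + 1), (H s).Adj (.inl i) (.inl k) ∧ ¬ F S k.val := by
        by_contra hcon
        push Not at hcon
        apply h4
        rw [mem_Zl]
        refine Or.inr (Or.inr ⟨hi0, fun h7 => ?_, fun h7 => ?_⟩)
        · exact hcon ⟨i.val - 1, by omega⟩ (by rw [adj_ll]; simp only; omega)
        · exact hcon ⟨i.val + 1, by omega⟩ (by rw [adj_ll]; simp)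
      obtain ⟨k, hk1, hk2⟩ := hk
      have hk3 : k.val % 3 ≠ 0 := by
        rw [adj_ll] at hk1
        omega
      have := h6 (.inr t0) ht (by rw [adj_lr]; exact hj)
        (two hk1 (by rw [adj_lr]; exact hk3) h4 (white hk3 hk2) ht)
      cases this
    · rw [adj_rl] at h5
      exact h5 hi0
  · have hF : ¬ F S i.val := fun h => h4 (by rw [mem_Zl]; exact Or.inr (Or.inl h))
    rcases u with j | t
    · rw [adj_ll] at h5
      by_cases hj : j.val % 3 = 0
      · have hjS : Sm S j.val := by
          rw [mem_Zl] at h3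
          rcases h3 with h3 | h3 | ⟨_, h7, h8⟩
          · exact h3
          · exact absurd h3 (not_F_of_mod hj)
          · exfalso
            rcases h5.symm with h5 | h5
            · apply hF
              have := h7 (by omega)
              rwa [show j.val - 1 = i.val by omega] at this
            · apply hF
              have := h8 (by omega)
              rwa [show j.val + 1 = i.val by omega] at this
        rcases h5.symm with h5 | h5
        · -- `j = i + 1`
          by_cases hm : i.val + 2 < 3 * s + 1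
          · have h7 := mate2 (by omega) hm hF (by rw [h5]; exact hjS)
            have hw := white (i := ⟨i.val + 2, hm⟩) (by simp only; omega) h7
            have := h6 (.inl ⟨i.val + 2, hm⟩) hw (by rw [adj_ll]; simp only; omega)
              (two (b := .inr t0) (by rw [adj_lr]; exact hi0) (by rw [adj_rl]; simp only; omega)
                h4 ht hw)
            have := congrArg Fin.val (Sum.inl.inj this)
            simp only at this
            omega
          · apply hF
            refine Or.inr ⟨by omega, Or.inr ⟨by rw [h5]; exact hjS, fun h => absurd h hm⟩⟩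
        · -- `j = i - 1`
          by_cases hm : i.val = 1
          · apply hF
            refine Or.inl ⟨by omega, Or.inr ⟨?_, fun h => absurd hm h⟩⟩
            rw [show i.val - 1 = j.val by omega]
            exact hjS
          · have h7 := mate1 (by omega) hm hi hF
              (by rw [show i.val - 1 = j.val by omega]; exact hjS)
            have hw := white (i := ⟨i.val - 2, by omega⟩) (by simp only; omega) h7
            have := h6 (.inl ⟨i.val - 2, by omega⟩) hw (by rw [adj_ll]; simp only; omega)
              (two (b := .inr t0) (by rw [adj_lr]; exact hi0) (by rw [adj_rl]; simp only; omega)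
                h4 ht hw)
            have := congrArg Fin.val (Sum.inl.inj this)
            simp only at this
            omega
      · have := h6 (.inr t0) ht (by rw [adj_lr]; exact hj) (one (by rw [adj_lr]; exact hi0) h4 ht)
        cases this
    · obtain ⟨j, hj1, hj2, hj3⟩ := h2 i hi0 hF ⟨t, mem_Zr.mp h3⟩
      have := h6 (.inl j) (white hj2 hj3) (by rw [adj_rl]; exact hj2)
        (two (b := .inr t0) (by rw [adj_lr]; exact hi0) (by rw [adj_rl]; exact hj2) h4 ht
          (white hj2 hj3))
      exact hj1 (Sum.inl.inj this)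

/-- With two white further vertices and a white path vertex not divisible by three, no further
vertex can be forced. -/
theorem no_top {S : Set (Fin (3 * s + 1) ⊕ Fin (2 * s - 1))} {t0 t1 : Fin (2 * s - 1)}
    (ht0 : .inr t0 ∉ S) (ht1 : .inr t1 ∉ S) (hne : t0 ≠ t1) {i0 : Fin (3 * s + 1)}
    (hi0 : i0.val % 3 ≠ 0) (hF : ¬ F S i0.val) {t : Fin (2 * s - 1)}
    {u : Fin (3 * s + 1) ⊕ Fin (2 * s - 1)} : ¬ Force (H s) (Z S) u (.inr t) := by
  rintro ⟨h3, h4, h5, h6⟩
  rcases u with j | t'
  · rw [adj_lr] at h5
    obtain ⟨t2, h7, h8⟩ : ∃ t2 : Fin (2 * s - 1), .inr t2 ∉ S ∧ t2 ≠ t := by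
      by_cases h : t0 = t
      · exact ⟨t1, ht1, fun h' => hne (h.trans h'.symm)⟩
      · exact ⟨t0, ht0, h⟩
    have h9 : (.inr t2 : Fin (3 * s + 1) ⊕ Fin (2 * s - 1)) ∉ Z S := fun h => h7 (mem_Zr.mp h)
    have := h6 (.inr t2) h9 (by rw [adj_lr]; exact h5)
      (two (b := .inl i0) (by rw [adj_rl]; exact hi0) (by rw [adj_lr]; exact hi0) h4
        (white hi0 hF) h9)
    exact h8 (Sum.inr.inj this)
  · exact adj_rr h5

theorem stall_T : step (H s) (Y s 1 0) ⊆ Y s 1 0 := by
  rintro (i | t) hw
  · rcases hw with hw | ⟨u, h1, h2, h3, h4⟩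
    · exact hw
    · exfalso
      rcases u with j | t
      · rw [mem_Y] at h1
        omega
      · rw [adj_rl] at h3
        have hi := i.isLt
        rcases (by omega : i.val % 3 = 1 ∨ i.val % 3 = 2) with h5 | h5
        · have h6 := h4 (.inl ⟨i.val + 1, by omega⟩) (by rw [mem_Y]; simp only; omega)
            (by rw [adj_rl]; simp only; omega) (one (by rw [adj_ll]; simp)
              h2 (by rw [mem_Y]; simp only; omega))
          have := congrArg Fin.val (Sum.inl.inj h6)
          simp only at this
          omega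
        · have h6 := h4 (.inl ⟨i.val - 1, by omega⟩) (by rw [mem_Y]; simp only; omega)
            (by rw [adj_rl]; simp only; omega) (one (by rw [adj_ll]; simp only; omega)
              h2 (by rw [mem_Y]; simp only; omega))
          have := congrArg Fin.val (Sum.inl.inj h6)
          simp only at this
          omega
  · exact mem_Y'

/-- Vertices of `F` are blue after one step. -/
theorem F_blue {S : Set (Fin (3 * s + 1) ⊕ Fin (2 * s - 1))} {i : Fin (3 * s + 1)}
    (h : F S i.val) : .inl i ∈ step (H s) S := by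
  have hi := i.isLt
  by_cases hS : (.inl i : Fin (3 * s + 1) ⊕ Fin (2 * s - 1)) ∈ S
  · exact Or.inl hS
  · right
    rcases h with ⟨h1, h2 | ⟨⟨h3, h4⟩, h5⟩⟩ | ⟨h1, h2 | ⟨⟨h3, h4⟩, h5⟩⟩
    · exact absurd (sm_iff.mp h2) hS
    · refine ⟨_, h4, hS, by rw [adj_ll]; simp only; omega, ?_⟩
      rintro (k | t) hk hk2 -
      · rw [adj_ll] at hk2
        simp only at hk2
        by_cases hki : k = i
        · rw [hki]
        · exfalso
          have hki' : k.val ≠ i.val := fun h => hki (Fin.ext h)
          have hk3 := k.isLt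
          have := h5 (by omega)
          rw [show i.val - 2 = k.val by omega] at this
          exact hk (sm_iff.mp this)
      · rw [adj_lr] at hk2
        simp only at hk2
        omega
    · exact absurd (sm_iff.mp h2) hS
    · refine ⟨_, h4, hS, by rw [adj_ll]; simp, ?_⟩
      rintro (k | t) hk hk2 -
      · rw [adj_ll] at hk2
        simp only at hk2
        by_cases hki : k = i
        · rw [hki]
        · exfalso
          have hki' : k.val ≠ i.val := fun h => hki (Fin.ext h)
          have hk3 := k.isLt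
          have := h5 (by omega)
          rw [show i.val + 2 = k.val by omega] at this
          exact hk (sm_iff.mp this)
      · rw [adj_lr] at hk2
        simp only at hk2
        omega

theorem last_step (hs : 1 ≤ s) {B : Set (Fin (3 * s + 1) ⊕ Fin (2 * s - 1))}
    (h : ∀ i : Fin (3 * s + 1), i.val % 3 ≠ 0 → .inl i ∈ B) : step (H s) B = Set.univ := by
  rw [Set.eq_univ_iff_forall]
  intro w
  by_cases hw : w ∈ B
  · exact Or.inl hw
  · right
    rcases w with i | t
    · have hi0 : i.val % 3 = 0 := by
        by_contra hcon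
        exact hw (h i hcon)
      have hiso : ∀ x, (H s).Adj (.inl i) x → x ∈ B := by
        rintro (j | t) hx
        · rw [adj_ll] at hx
          exact h j (by omega)
        · rw [adj_lr] at hx
          omega
      have hi := i.isLt
      by_cases h3 : i.val < 3 * s
      · exact ⟨.inl ⟨i.val + 1, by omega⟩, h _ (by simp only; omega), hw,
          by rw [adj_ll]; simp, fun w' _ _ h4 => isolated hiso h4⟩
      · exact ⟨.inl ⟨i.val - 1, by omega⟩, h _ (by simp only; omega), hw,
          by rw [adj_ll]; simp only; omega, fun w' _ _ h4 => isolated hiso h4⟩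
    · have hiso : ∀ x, (H s).Adj (.inr t) x → x ∈ B := by
        rintro (j | t') hx
        · rw [adj_rl] at hx
          exact h j hx
        · exact absurd hx adj_rr
      exact ⟨.inl ⟨1, by omega⟩, h _ (by simp), hw, by rw [adj_lr]; simp,
        fun w' _ _ h4 => isolated hiso h4⟩

/-! ### Counting -/

open Classical in
/-- blue path vertices -/
noncomputable def XF (S : Set (Fin (3 * s + 1) ⊕ Fin (2 * s - 1))) : Finset (Fin (3 * s + 1)) :=
  Finset.univ.filter (fun i => .inl i ∈ S)

open Classical in
/-- blue further vertices -/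
noncomputable def TF (S : Set (Fin (3 * s + 1) ⊕ Fin (2 * s - 1))) : Finset (Fin (2 * s - 1)) :=
  Finset.univ.filter (fun t => .inr t ∈ S)

open Classical in
/-- vertices of `F` -/
noncomputable def RF (S : Set (Fin (3 * s + 1) ⊕ Fin (2 * s - 1))) : Finset (Fin (3 * s + 1)) :=
  Finset.univ.filter (fun i => F S i.val)

open Classical in
/-- the other vertices not divisible by three -/
noncomputable def WF (S : Set (Fin (3 * s + 1) ⊕ Fin (2 * s - 1))) : Finset (Fin (3 * s + 1)) :=
  Finset.univ.filter (fun i => i.val % 3 ≠ 0 ∧ ¬ F S i.val)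

theorem ncard_eq (S : Set (Fin (3 * s + 1) ⊕ Fin (2 * s - 1))) :
    S.ncard = (XF S).card + (TF S).card := by
  classical
  have e : S = Sum.inl '' (XF S : Set (Fin (3 * s + 1))) ∪
      Sum.inr '' (TF S : Set (Fin (2 * s - 1))) := by
    ext v
    rcases v with i | t
    · simp [XF]
    · simp [TF]
  conv_lhs => rw [e]
  rw [Set.ncard_union_eq, Set.ncard_image_of_injective _ Sum.inl_injective,
    Set.ncard_image_of_injective _ Sum.inr_injective, Set.ncard_coe_finset, Set.ncard_coe_finset]
  · rw [Set.disjoint_left]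
    rintro _ ⟨i, _, rfl⟩ ⟨t, _, ht⟩
    cases ht

theorem card_R (s : ℕ) : ((Finset.univ : Finset (Fin (3 * s + 1))).filter
    (fun i => i.val % 3 ≠ 0)).card = 2 * s := by
  rw [Finset.card_filter, Fin.sum_univ_eq_sum_range (fun i => if i % 3 ≠ 0 then 1 else 0)]
  induction s with
  | zero => rfl
  | succ s ih =>
    rw [show 3 * (s + 1) + 1 = 3 * s + 1 + 1 + 1 + 1 by ring, Finset.sum_range_succ,
      Finset.sum_range_succ, Finset.sum_range_succ, ih]
    rw [if_pos (by omega), if_pos (by omega), if_neg (by omega)]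
    ring

theorem card_RW (S : Set (Fin (3 * s + 1) ⊕ Fin (2 * s - 1))) :
    (RF S).card + (WF S).card = 2 * s := by
  classical
  rw [← card_R s, ← Finset.card_union_of_disjoint]
  · congr 1
    ext i
    simp only [RF, WF, Finset.mem_union, Finset.mem_filter, Finset.mem_univ, true_and]
    constructor
    · rintro (h | h)
      · intro h0
        exact not_F_of_mod h0 h
      · exact h.1
    · intro h
      by_cases h' : F S i.val
      · exact Or.inl h'
      · exact Or.inr ⟨h, h'⟩
  · rw [Finset.disjoint_left]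
    intro i hi hi2
    simp only [RF, WF, Finset.mem_filter, Finset.mem_univ, true_and] at hi hi2
    exact hi2.2 hi

theorem card_RX (S : Set (Fin (3 * s + 1) ⊕ Fin (2 * s - 1))) : (RF S).card ≤ (XF S).card := by
  classical
  let φ : ℕ → ℕ := fun i => if Sm S i then i else if i % 3 = 1 then i - 1 else i + 1
  have key : ∀ i, F S i → Sm S (φ i) := by
    intro i hi
    simp only [φ]
    split_ifs with h1 h2
    · exact h1
    · rcases hi with ⟨_, h | ⟨h, _⟩⟩ | ⟨h, _⟩
      · exact absurd h h1
      · exact h
      · omega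
    · rcases hi with ⟨h, _⟩ | ⟨_, h | ⟨h, _⟩⟩
      · omega
      · exact absurd h h1
      · exact h
  have hlt : ∀ i, F S i → φ i < 3 * s + 1 := fun i hi => (key i hi).1
  have hinj : ∀ i j : ℕ, i < 3 * s + 1 → j < 3 * s + 1 → F S i → F S j → φ i = φ j → i = j := by
    intro i j hi3 hj3 hi hj hij
    simp only [φ] at hij
    have key2 : ∀ i j : ℕ, i < 3 * s + 1 → j < 3 * s + 1 → F S i → F S j → ¬ Sm S i → ¬ Sm S j →
        (if i % 3 = 1 then i - 1 else i + 1) = (if j % 3 = 1 then j - 1 else j + 1) → i ≤ j := by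
      intro i j hi3 hj3 hi hj h1 h2 h3
      by_contra hcon
      rcases hi with ⟨h4, h5 | ⟨h5, h6⟩⟩ | ⟨h4, h5 | ⟨h5, h6⟩⟩
      · exact h1 h5
      · rw [if_pos h4] at h3
        have hj4 : j % 3 = 2 := by
          rcases hj with ⟨h7, _⟩ | ⟨h7, _⟩
          · rw [if_pos h7] at h3
            omega
          · exact h7
        rw [if_neg (by omega)] at h3
        have := h6 (by omega)
        rw [show i - 2 = j by omega] at this
        exact h2 this
      · exact h1 h5
      · rw [if_neg (by omega)] at h3
        have hj4 : j % 3 = 1 := by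
          rcases hj with ⟨h7, _⟩ | ⟨h7, _⟩
          · exact h7
          · rw [if_neg (by omega)] at h3
            omega
        rw [if_pos hj4] at h3
        omega
    have hmod : ∀ k, F S k → k % 3 ≠ 0 := fun k hk h0 => not_F_of_mod h0 hk
    have hi0 := hmod i hi
    have hj0 := hmod j hj
    by_cases h1 : Sm S i
    · by_cases h2 : Sm S j
      · rwa [if_pos h1, if_pos h2] at hij
      · rw [if_pos h1, if_neg h2] at hij
        split_ifs at hij <;> omega
    · by_cases h2 : Sm S j
      · rw [if_neg h1, if_pos h2] at hij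
        split_ifs at hij <;> omega
      · rw [if_neg h1, if_neg h2] at hij
        exact le_antisymm (key2 i j hi3 hj3 hi hj h1 h2 hij)
          (key2 j i hj3 hi3 hj hi h2 h1 hij.symm)
  refine Finset.card_le_card_of_injOn
    (fun i => if h : F S i.val then ⟨φ i.val, hlt _ h⟩ else i) ?_ ?_
  · intro i hi
    simp only [RF, Finset.coe_filter, Finset.mem_univ, true_and, Set.mem_ofPred_eq] at hi
    simp only [XF, Finset.coe_filter, Finset.mem_univ, true_and, Set.mem_ofPred_eq]
    rw [dif_pos hi]
    exact (key _ hi).2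
  · intro i hi j hj hij
    simp only [RF, Finset.coe_filter, Finset.mem_univ, true_and, Set.mem_ofPred_eq] at hi hj
    simp only at hij
    rw [dif_pos hi, dif_pos hj] at hij
    exact Fin.ext (hinj _ _ i.isLt j.isLt hi hj (congrArg Fin.val hij))

/-- three different members -/
theorem three {S : Set (Fin (3 * s + 1) ⊕ Fin (2 * s - 1))} {i j k : ℕ} (hi : Sm S i)
    (hj : Sm S j) (hk : Sm S k) (hij : i ≠ j) (hik : i ≠ k) (hjk : j ≠ k) :
    3 ≤ (XF S).card := by
  classical
  obtain ⟨a1, a2⟩ := hi
  obtain ⟨b1, b2⟩ := hj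
  obtain ⟨c1, c2⟩ := hk
  have : ({⟨i, a1⟩, ⟨j, b1⟩, ⟨k, c1⟩} : Finset (Fin (3 * s + 1))) ⊆ XF S := by
    intro x hx
    simp only [Finset.mem_insert, Finset.mem_singleton] at hx
    simp only [XF, Finset.mem_filter, Finset.mem_univ, true_and]
    rcases hx with rfl | rfl | rfl
    · exact a2
    · exact b2
    · exact c2
  refine le_trans (le_of_eq ?_) (Finset.card_le_card this)
  rw [Finset.card_insert_of_notMem, Finset.card_insert_of_notMem, Finset.card_singleton]
  · simp only [Finset.mem_singleton, Fin.mk.injEq]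
    exact hjk
  · simp only [Finset.mem_insert, Finset.mem_singleton, Fin.mk.injEq]
    rintro (h | h)
    · exact hij h
    · exact hik h

theorem threeF {S : Set (Fin (3 * s + 1) ⊕ Fin (2 * s - 1))} {i j k : ℕ} (hi : F S i)
    (hj : F S j) (hk : F S k) (a1 : i < 3 * s + 1) (b1 : j < 3 * s + 1) (c1 : k < 3 * s + 1)
    (hij : i ≠ j) (hik : i ≠ k) (hjk : j ≠ k) : 3 ≤ (RF S).card := by
  classical
  have : ({⟨i, a1⟩, ⟨j, b1⟩, ⟨k, c1⟩} : Finset (Fin (3 * s + 1))) ⊆ RF S := by
    intro x hx
    simp only [Finset.mem_insert, Finset.mem_singleton] at hx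
    simp only [RF, Finset.mem_filter, Finset.mem_univ, true_and]
    rcases hx with rfl | rfl | rfl
    · exact hi
    · exact hj
    · exact hk
  refine le_trans (le_of_eq ?_) (Finset.card_le_card this)
  rw [Finset.card_insert_of_notMem, Finset.card_insert_of_notMem, Finset.card_singleton]
  · simp only [Finset.mem_singleton, Fin.mk.injEq]
    exact hjk
  · simp only [Finset.mem_insert, Finset.mem_singleton, Fin.mk.injEq]
    rintro (h | h)
    · exact hij h
    · exact hik h

theorem twoF {S : Set (Fin (3 * s + 1) ⊕ Fin (2 * s - 1))} {i j : ℕ} (hi : F S i)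
    (hj : F S j) (a1 : i < 3 * s + 1) (b1 : j < 3 * s + 1) (hij : i ≠ j) :
    2 ≤ (RF S).card := by
  classical
  have : ({⟨i, a1⟩, ⟨j, b1⟩} : Finset (Fin (3 * s + 1))) ⊆ RF S := by
    intro x hx
    simp only [Finset.mem_insert, Finset.mem_singleton] at hx
    simp only [RF, Finset.mem_filter, Finset.mem_univ, true_and]
    rcases hx with rfl | rfl
    · exact hi
    · exact hj
  refine le_trans (le_of_eq ?_) (Finset.card_le_card this)
  rw [Finset.card_insert_of_notMem, Finset.card_singleton]
  simp only [Finset.mem_singleton, Fin.mk.injEq]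
  exact hij

/-- slow sets on the left or on the right -/
theorem slow (hs : 2 ≤ s) {S : Set (Fin (3 * s + 1) ⊕ Fin (2 * s - 1))}
    (h : (∀ k, Sm S k → k ≤ 2) ∨ (∀ k, Sm S k → 3 * s - 2 ≤ k)) :
    ∀ t, 2 * t < 3 * s → after (H s) S t ≠ Set.univ := by
  intro t ht heq
  rcases h with h | h
  · have h1 := after_le (G := H s) (S := S) (fun t => Y s 0 (2 + t)) ?_ (fun t => step_Y) t
    · rw [heq] at h1
      have h3 := h1 (Set.mem_univ (.inl ⟨3 * s, by omega⟩))
      rw [mem_Y] at h3
      simp only at h3
      omega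
    · rintro (i | t) hi
      · have := h i.val (sm_iff.mpr hi)
        exact mem_Y.mpr (by omega)
      · exact mem_Y'
  · have h1 := after_le (G := H s) (S := S) (fun t => Y s (3 * s - 2 - t) (3 * s + t)) ?_ ?_ t
    · rw [heq] at h1
      have h3 := h1 (Set.mem_univ (.inl ⟨0, by omega⟩))
      rw [mem_Y] at h3
      simp only at h3
      omega
    · rintro (i | t) hi
      · have := h i.val (sm_iff.mpr hi)
        have hi2 := i.isLt
        exact mem_Y.mpr (by omega)
      · exact mem_Y'
    · intro t
      refine (step_Y).trans ?_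
      rintro (i | t') hi
      · rw [mem_Y] at hi
        exact mem_Y.mpr (by omega)
      · exact mem_Y'

/-! ### Classification of the small PSD zero forcing sets -/

theorem top_full {S : Set (Fin (3 * s + 1) ⊕ Fin (2 * s - 1))} (hS : IsPSD (H s) S)
    (hX : (XF S).card ≤ 1) : (XF S).card = 1 ∧
      ∀ t, 2 * t < 3 * s → after (H s) S t ≠ Set.univ := by
  classical
  rcases (by omega : (XF S).card = 0 ∨ (XF S).card = 1) with h | h
  · exfalso
    rw [Finset.card_eq_zero] at h
    refine stall (Z := Y s 1 0) ?_ stall_T ?_ hS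
    · rintro (i | t) hi
      · have : i ∈ XF S := by
          simp only [XF, Finset.mem_filter, Finset.mem_univ, true_and]
          exact hi
        rw [h] at this
        exact absurd this (Finset.notMem_empty _)
      · exact mem_Y'
    · intro h1
      have h2 : (.inl 0 : Fin (3 * s + 1) ⊕ Fin (2 * s - 1)) ∈ Y s 1 0 := by rw [h1]; trivial
      rw [mem_Y] at h2
      omega
  · refine ⟨h, fun t ht heq => ?_⟩
    rw [Finset.card_eq_one] at h
    obtain ⟨p, hp⟩ := h
    have h1 := after_le (G := H s) (S := S) (fun t => Y s (p.val - t) (p.val + t)) ?_ ?_ t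
    · rw [heq] at h1
      have h2 := h1 (Set.mem_univ (.inl ⟨0, by omega⟩))
      have h3 := h1 (Set.mem_univ (.inl ⟨3 * s, by omega⟩))
      rw [mem_Y] at h2 h3
      simp only at h2 h3
      omega
    · rintro (i | t) hi
      · have : i ∈ XF S := by
          simp only [XF, Finset.mem_filter, Finset.mem_univ, true_and]
          exact hi
        rw [hp, Finset.mem_singleton] at this
        rw [this]
        exact mem_Y.mpr (by omega)
      · exact mem_Y'
    · intro t
      refine (step_Y).trans ?_
      rintro (i | t') hi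
      · rw [mem_Y] at hi
        exact mem_Y.mpr (by omega)
      · exact mem_Y'

theorem exists_other {S : Set (Fin (3 * s + 1) ⊕ Fin (2 * s - 1))} (h : 2 ≤ (WF S).card)
    (i : Fin (3 * s + 1)) : ∃ j : Fin (3 * s + 1), j ≠ i ∧ j.val % 3 ≠ 0 ∧ ¬ F S j.val := by
  classical
  obtain ⟨j, hj, hji⟩ := Finset.exists_mem_ne (by omega : 1 < (WF S).card) i
  simp only [WF, Finset.mem_filter, Finset.mem_univ, true_and] at hj
  exact ⟨j, hji, hj.1, hj.2⟩

theorem Z_ne {S : Set (Fin (3 * s + 1) ⊕ Fin (2 * s - 1))} {t0 : Fin (2 * s - 1)}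
    (ht0 : .inr t0 ∉ S) : Z S ≠ Set.univ := by
  intro h
  apply ht0
  rw [← mem_Zr, h]
  trivial

/-- Exactly one further vertex is white. -/
theorem top_one (hs : 2 ≤ s) {S : Set (Fin (3 * s + 1) ⊕ Fin (2 * s - 1))}
    (hS : IsPSD (H s) S) (hX : (XF S).card ≤ 2) {t0 : Fin (2 * s - 1)} (ht0 : .inr t0 ∉ S)
    (ht : ∀ t, t ≠ t0 → .inr t ∈ S) : (XF S).card = 2 ∧
      ∀ t, 2 * t < 3 * s → after (H s) S t ≠ Set.univ := by
  classical
  have hRX := card_RX S
  have hRW := card_RW S
  have hforce : ∃ u, Force (H s) (Z S) u (.inr t0) := by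
    by_contra hcon
    refine stall (Z := Z S) (fun v hv => Or.inl hv) ?_ (Z_ne ht0) hS
    rintro (i | t) hw
    · rcases hw with hw | ⟨u, hu⟩
      · exact hw
      · exact absurd hu (no_path ht0 (fun i _ _ _ => exists_other (by omega) i))
    · by_cases h : t = t0
      · subst h
        rcases hw with hw | hw
        · exact hw
        · exact absurd hw hcon
      · exact Or.inl (ht t h)
  obtain ⟨u, h1, h2, h3, h4⟩ := hforce
  rcases u with r | t
  swap
  · exact absurd h3 adj_rr
  rw [adj_lr] at h3
  have hr := r.isLt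
  have hFr : F S r.val := by
    rw [mem_Zl] at h1
    rcases h1 with h1 | h1 | ⟨h1, _⟩
    · exact F_of_Sm h3 h1
    · exact h1
    · exact absurd h1 h3
  -- every white neighbour of `r` on the path that is not divisible by three gives a contradiction
  have hnb : ∀ q : Fin (3 * s + 1), (q.val = r.val + 1 ∨ q.val + 1 = r.val) → q.val % 3 ≠ 0 →
      F S q.val := by
    intro q hq hq3
    by_contra hF
    have := h4 (.inl q) (white hq3 hF) (by rw [adj_ll]; omega)
      (one (by rw [adj_rl]; exact hq3) h2 (white hq3 hF))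
    cases this
  -- the neighbour divisible by three
  have hnn : ∀ n m : Fin (3 * s + 1), (n.val = r.val + 1 ∨ n.val + 1 = r.val) → n.val % 3 = 0 →
      (m.val = n.val + 1 ∨ m.val + 1 = n.val) → m ≠ r → Sm S n.val ∨ F S m.val := by
    intro n m hn hn3 hm hmr
    by_contra hcon
    push Not at hcon
    obtain ⟨hc1, hc2⟩ := hcon
    have hm3 : m.val % 3 ≠ 0 := by omega
    have hnZ : (.inl n : Fin (3 * s + 1) ⊕ Fin (2 * s - 1)) ∉ Z S := by
      rw [mem_Zl]
      rintro (h5 | h5 | ⟨_, h6, h7⟩)
      · exact hc1 h5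
      · exact not_F_of_mod hn3 h5
      · rcases hm with h8 | h8
        · apply hc2
          rw [h8]
          exact h7 (by have := m.isLt; omega)
        · apply hc2
          rw [show m.val = n.val - 1 by omega]
          exact h6 (by omega)
    have := h4 (.inl n) hnZ (by rw [adj_ll]; omega)
      (two (b := .inl m) (by rw [adj_rl]; exact hm3) (by rw [adj_ll]; omega) h2
        (white hm3 hc2) hnZ)
    cases this
  rcases (by omega : r.val % 3 = 1 ∨ r.val % 3 = 2) with hr3 | hr3
  · have hq := hnb ⟨r.val + 1, by omega⟩ (Or.inl rfl) (by simp only; omega)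
    simp only at hq
    have h2F := twoF hFr hq hr (by omega) (by omega)
    by_cases hr1 : r.val = 1
    · refine ⟨by omega, slow hs (Or.inl ?_)⟩
      rw [hr1] at hFr hq
      have a1 : Sm S 1 ∨ Sm S 0 := by
        rcases hFr with ⟨_, h5 | ⟨h5, _⟩⟩ | ⟨h5, _⟩
        · exact Or.inl h5
        · exact Or.inr h5
        · omega
      have a2 : Sm S 2 := by
        rcases hq with ⟨h5, _⟩ | ⟨_, h5 | ⟨h5, h6⟩⟩
        · omega
        · exact h5
        · exfalso
          have h7 := h6 (by omega)
          rcases a1 with a1 | a1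
          · have := three a1 h5 h7 (by omega) (by omega) (by omega)
            omega
          · have := three a1 h5 h7 (by omega) (by omega) (by omega)
            omega
      intro k hk
      by_contra hcon
      rcases a1 with a1 | a1
      · have := three a1 a2 hk (by omega) (by omega) (by omega)
        omega
      · have := three a1 a2 hk (by omega) (by omega) (by omega)
        omega
    · exfalso
      have h5 := hnn ⟨r.val - 1, by omega⟩ ⟨r.val - 2, by omega⟩ (Or.inr (by simp only; omega))
        (by simp only; omega) (Or.inr (by simp only; omega))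
        (fun h => by have := congrArg Fin.val h; simp only at this; omega)
      simp only at h5
      by_cases hF2 : F S (r.val - 2)
      · have := threeF hF2 hFr hq (by omega) hr (by omega) (by omega) (by omega) (by omega)
        omega
      · have h6 : Sm S (r.val - 1) := h5.resolve_right hF2
        have h7 : Sm S r.val := by
          rcases hFr with ⟨_, h8 | ⟨_, h8⟩⟩ | ⟨h8, _⟩
          · exact h8
          · exact absurd (F_of_Sm (by omega) (h8 hr1)) hF2
          · omega
        rcases hq with ⟨h8, _⟩ | ⟨_, h8 | ⟨h8, _⟩⟩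
        · omega
        · have := three h6 h7 h8 (by omega) (by omega) (by omega)
          omega
        · have := three h6 h7 h8 (by omega) (by omega) (by omega)
          omega
  · have hq := hnb ⟨r.val - 1, by omega⟩ (Or.inr (by simp only; omega)) (by simp only; omega)
    simp only at hq
    have h2F := twoF hFr hq hr (by omega) (by omega)
    by_cases hr1 : r.val = 3 * s - 1
    · refine ⟨by omega, slow hs (Or.inr ?_)⟩
      rw [hr1] at hFr hq
      have a1 : Sm S (3 * s - 1) ∨ Sm S (3 * s) := by
        rcases hFr with ⟨h5, _⟩ | ⟨_, h5 | ⟨h5, _⟩⟩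
        · omega
        · exact Or.inl h5
        · right
          rwa [show 3 * s - 1 + 1 = 3 * s by omega] at h5
      have a2 : Sm S (3 * s - 2) := by
        rw [show 3 * s - 1 - 1 = 3 * s - 2 by omega] at hq
        rcases hq with ⟨_, h5 | ⟨h5, h6⟩⟩ | ⟨h5, _⟩
        · exact h5
        · exfalso
          have h7 := h6 (by omega)
          rcases a1 with a1 | a1
          · have := three a1 h5 h7 (by omega) (by omega) (by omega)
            omega
          · have := three a1 h5 h7 (by omega) (by omega) (by omega)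
            omega
        · omega
      intro k hk
      by_contra hcon
      rcases a1 with a1 | a1
      · have := three a1 a2 hk (by omega) (by omega) (by omega)
        omega
      · have := three a1 a2 hk (by omega) (by omega) (by omega)
        omega
    · exfalso
      have h5 := hnn ⟨r.val + 1, by omega⟩ ⟨r.val + 2, by omega⟩ (Or.inl rfl)
        (by simp only; omega) (Or.inl rfl)
        (fun h => by have := congrArg Fin.val h; simp only at this; omega)
      simp only at h5
      by_cases hF2 : F S (r.val + 2)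
      · have := threeF hF2 hFr hq (by omega) hr (by omega) (by omega) (by omega) (by omega)
        omega
      · have h6 : Sm S (r.val + 1) := h5.resolve_right hF2
        have h7 : Sm S r.val := by
          rcases hFr with ⟨h8, _⟩ | ⟨_, h8 | ⟨_, h8⟩⟩
          · omega
          · exact h8
          · exact absurd (F_of_Sm (by omega) (h8 (by omega))) hF2
        rcases hq with ⟨_, h8 | ⟨h8, _⟩⟩ | ⟨h8, _⟩
        · have := three h6 h7 h8 (by omega) (by omega) (by omega)
          omega
        · have := three h6 h7 h8 (by omega) (by omega) (by omega)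
          omega
        · omega

/-- At least two further vertices are white. -/
theorem top_two (hs : 2 ≤ s) {S : Set (Fin (3 * s + 1) ⊕ Fin (2 * s - 1))}
    (hS : IsPSD (H s) S) (hc : (XF S).card + (TF S).card ≤ 2 * s) {t0 t1 : Fin (2 * s - 1)}
    (ht0 : .inr t0 ∉ S) (ht1 : .inr t1 ∉ S) (hne : t0 ≠ t1) :
    (XF S).card + (TF S).card = 2 * s ∧ after (H s) S 3 = Set.univ := by
  classical
  have hRX := card_RX S
  have hRW := card_RW S
  -- either all are blue or exactly one is white and some further vertex is blue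
  have hW : (WF S).card = 0 ∨ ((WF S).card = 1 ∧ 1 ≤ (TF S).card) := by
    by_contra hcon
    push Not at hcon
    obtain ⟨hW0, hW1⟩ := hcon
    have hpos : 0 < (WF S).card := Nat.pos_of_ne_zero hW0
    obtain ⟨i0, hi0⟩ := Finset.card_pos.mp hpos
    simp only [WF, Finset.mem_filter, Finset.mem_univ, true_and] at hi0
    refine stall (Z := Z S) (fun v hv => Or.inl hv) ?_ (Z_ne ht0) hS
    rintro (i | t) (hw | ⟨u, hu⟩)
    · exact hw
    · refine absurd hu (no_path ht0 (fun i _ _ ht => exists_other ?_ i))
      by_contra hcon2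
      have h1 : (WF S).card = 1 := by omega
      have h2 := hW1 h1
      obtain ⟨t, ht⟩ := ht
      have : t ∈ TF S := by
        simp only [TF, Finset.mem_filter, Finset.mem_univ, true_and]
        exact ht
      have := Finset.card_pos.mpr ⟨t, this⟩
      omega
    · exact hw
    · exact absurd hu (no_top ht0 ht1 hne hi0.1 hi0.2)
  refine ⟨by omega, ?_⟩
  rcases hW with hW | ⟨hW, hT⟩
  · rw [Finset.card_eq_zero] at hW
    have h1 : ∀ i : Fin (3 * s + 1), i.val % 3 ≠ 0 → .inl i ∈ after (H s) S 1 := by
      intro i hi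
      apply F_blue
      by_contra hF
      have : i ∈ WF S := by
        simp only [WF, Finset.mem_filter, Finset.mem_univ, true_and]
        exact ⟨hi, hF⟩
      rw [hW] at this
      exact Finset.notMem_empty _ this
    have h2 : after (H s) S 2 = Set.univ := last_step (by omega) h1
    show step (H s) (after (H s) S 2) = Set.univ
    rw [h2]
    exact Set.eq_univ_iff_forall.mpr fun v => Or.inl trivial
  · rw [Finset.card_eq_one] at hW
    obtain ⟨i0, hi0⟩ := hW
    obtain ⟨t, ht⟩ := Finset.card_pos.mp hT
    simp only [TF, Finset.mem_filter, Finset.mem_univ, true_and] at ht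
    have h1 : ∀ i : Fin (3 * s + 1), i.val % 3 ≠ 0 → i ≠ i0 → .inl i ∈ after (H s) S 1 := by
      intro i hi hne
      apply F_blue
      by_contra hF
      have : i ∈ WF S := by
        simp only [WF, Finset.mem_filter, Finset.mem_univ, true_and]
        exact ⟨hi, hF⟩
      rw [hi0, Finset.mem_singleton] at this
      exact hne this
    have ht1 : (.inr t : Fin (3 * s + 1) ⊕ Fin (2 * s - 1)) ∈ after (H s) S 1 := Or.inl ht
    have h2 : ∀ i : Fin (3 * s + 1), i.val % 3 ≠ 0 → .inl i ∈ after (H s) S 2 := by
      intro i hi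
      by_cases hii : i = i0
      · by_cases h3 : (.inl i : Fin (3 * s + 1) ⊕ Fin (2 * s - 1)) ∈ after (H s) S 1
        · exact Or.inl h3
        · right
          refine ⟨.inr t, ht1, h3, by rw [adj_rl]; exact hi, ?_⟩
          rintro (k | t') hk hk2 -
          · rw [adj_rl] at hk2
            by_cases hki : k = i
            · rw [hki]
            · exact absurd (h1 k hk2 (fun h => hki (h.trans hii.symm))) hk
          · exact absurd hk2 adj_rr
      · exact Or.inl (h1 i hi hii)
    exact last_step (by omega) h2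

theorem classify (hs : 2 ≤ s) {S : Set (Fin (3 * s + 1) ⊕ Fin (2 * s - 1))}
    (hS : IsPSD (H s) S) (hc : S.ncard ≤ 2 * s) : S.ncard = 2 * s ∧
      (after (H s) S 3 = Set.univ ∨ ∀ t, 2 * t < 3 * s → after (H s) S t ≠ Set.univ) := by
  classical
  rw [ncard_eq] at hc ⊢
  by_cases h0 : ∃ t0 : Fin (2 * s - 1), .inr t0 ∉ S
  · obtain ⟨t0, ht0⟩ := h0
    by_cases h1 : ∃ t1 : Fin (2 * s - 1), t0 ≠ t1 ∧ .inr t1 ∉ S
    · obtain ⟨t1, hne, ht1⟩ := h1
      have := top_two hs hS hc ht0 ht1 hne
      exact ⟨this.1, Or.inl this.2⟩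
    · push Not at h1
      have hT : (TF S).card = 2 * s - 2 := by
        have : TF S = Finset.univ.erase t0 := by
          ext t
          simp only [TF, Finset.mem_filter, Finset.mem_univ, true_and, Finset.mem_erase, and_true]
          constructor
          · rintro h rfl
            exact ht0 h
          · intro h
            exact h1 t (Ne.symm h)
        rw [this, Finset.card_erase_of_mem (Finset.mem_univ _), Finset.card_univ, Fintype.card_fin]
        omega
      have := top_one hs hS (by omega) ht0 (fun t ht => h1 t (Ne.symm ht))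
      exact ⟨by omega, Or.inr this.2⟩
  · push Not at h0
    have hT : (TF S).card = 2 * s - 1 := by
      have : TF S = Finset.univ := by
        ext t
        simp only [TF, Finset.mem_filter, Finset.mem_univ, true_and, iff_true]
        exact h0 t
      rw [this, Finset.card_univ, Fintype.card_fin]
    have := top_full hS (by omega)
    exact ⟨by omega, Or.inr this.2⟩

theorem min_iff (hs : 2 ≤ s) {S : Set (Fin (3 * s + 1) ⊕ Fin (2 * s - 1))}
    (hS : IsPSD (H s) S) (hc : S.ncard = 2 * s) : IsMinPSD (H s) S := by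
  refine ⟨hS, fun S' hS' => ?_⟩
  by_contra hcon
  have := (classify hs hS' (by omega)).1
  omega

/-- the fast set -/
theorem fast_set (hs : 2 ≤ s) : ∃ S, IsMinPSD (H s) S ∧ pt (H s) S ≤ 3 ∧ S.ncard = 2 * s := by
  classical
  let S : Set (Fin (3 * s + 1) ⊕ Fin (2 * s - 1)) :=
    Sum.inl '' {i : Fin (3 * s + 1) | i.val % 3 ≠ 0}
  have h1 : after (H s) S 1 = Set.univ := last_step (by omega) (fun i hi => ⟨i, hi, rfl⟩)
  have hS : IsPSD (H s) S := ⟨1, h1⟩
  have hcard : S.ncard = 2 * s := by
    rw [Set.ncard_image_of_injective _ Sum.inl_injective, ← card_R s,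
      ← Set.ncard_coe_finset]
    congr 1
    ext i
    simp
  exact ⟨S, min_iff hs hS hcard, (pt_le h1).trans (by norm_num), hcard⟩

/-- the slow set -/
theorem slow_set (hs : 2 ≤ s) : ∃ S, IsMinPSD (H s) S ∧ 3 * s ≤ 2 * pt (H s) S := by
  classical
  let S : Set (Fin (3 * s + 1) ⊕ Fin (2 * s - 1)) :=
    insert (.inl 0) (Sum.inr '' Set.univ)
  have h1 : ∀ t, Y s 0 t ⊆ after (H s) S t := by
    intro t
    induction t with
    | zero =>
      rintro (i | t') hi
      · rw [mem_Y] at hi
        have : i = 0 := Fin.ext (by simp only [Fin.val_zero]; omega)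
        rw [this]
        exact Set.mem_insert _ _
      · exact Set.mem_insert_of_mem _ ⟨t', trivial, rfl⟩
    | succ t ih =>
      rintro (i | t') hi
      · rw [mem_Y] at hi
        by_cases h2 : (.inl i : Fin (3 * s + 1) ⊕ Fin (2 * s - 1)) ∈ after (H s) S t
        · exact Or.inl h2
        · right
          have h3 : i.val = t + 1 := by
            by_contra hcon
            exact h2 (ih (mem_Y.mpr (by omega)))
          have hi2 := i.isLt
          refine ⟨.inl ⟨t, by omega⟩, ih (mem_Y.mpr (by simp)), h2,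
            by rw [adj_ll]; simp only; omega, ?_⟩
          rintro (k | t'') hk hk2 -
          · rw [adj_ll] at hk2
            simp only at hk2
            have : k = i := by
              by_contra hki
              have hki' : k.val ≠ i.val := fun h => hki (Fin.ext h)
              exact hk (ih (mem_Y.mpr (by omega)))
            rw [this]
          · exact absurd (ih mem_Y') hk
      · exact Or.inl (ih mem_Y')
  have hS : IsPSD (H s) S := by
    refine ⟨3 * s, Set.eq_univ_iff_forall.mpr fun v => h1 _ ?_⟩
    rcases v with i | t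
    · have := i.isLt
      exact mem_Y.mpr (by omega)
    · exact mem_Y'
  have hcard : S.ncard = 2 * s := by
    rw [Set.ncard_insert_of_notMem, Set.ncard_image_of_injective _ Sum.inr_injective,
      Set.ncard_univ, Nat.card_eq_fintype_card, Fintype.card_fin]
    · omega
    · rintro ⟨t, _, ht⟩
      cases ht
  refine ⟨S, min_iff hs hS hcard, ?_⟩
  by_contra hcon
  have h2 : ∀ t, 2 * t < 3 * s → after (H s) S t ≠ Set.univ := by
    have hT : ∀ t : Fin (2 * s - 1), (.inr t : Fin (3 * s + 1) ⊕ Fin (2 * s - 1)) ∈ S :=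
      fun t => Set.mem_insert_of_mem _ ⟨t, trivial, rfl⟩
    refine slow hs (Or.inl ?_)
    rintro k ⟨hk, hk2⟩
    rcases hk2 with hk2 | ⟨t, _, ht⟩
    · have := congrArg Fin.val (Sum.inl.inj hk2)
      simp only [Fin.val_zero] at this
      omega
    · cases ht
  exact h2 _ (by omega) (pt_mem hS)

end graph

/-- For every `g` there is a finite connected graph `G` with the following property: some minimum
PSD zero forcing set of `G` has propagation time at most `3`, some minimum PSD zero forcing set has
propagation time greater than `3 + g`, and no minimum PSD zero forcing set has one of the `g`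
propagation times `3 + 1, ..., 3 + g`. -/
theorem result (g : ℕ) : ∃ (V : Type) (_ : Finite V) (G : SimpleGraph V), G.Connected ∧
    (∃ S, IsMinPSD G S ∧ pt G S ≤ 3) ∧ (∃ S, IsMinPSD G S ∧ 3 + g < pt G S) ∧
    ∀ S, IsMinPSD G S → pt G S ≤ 3 ∨ 3 + g < pt G S := by
  obtain ⟨S1, h1, h2, hc1⟩ := fast_set (s := g + 3) (by omega)
  obtain ⟨S2, h3, h4⟩ := slow_set (s := g + 3) (by omega)
  refine ⟨_, inferInstance, H (g + 3), ?_, ⟨S1, h1, h2⟩, ⟨S2, h3, by omega⟩, fun S hS => ?_⟩
  · have hr : ∀ k (hk : k < 3 * (g + 3) + 1), (H (g + 3)).Reachable (.inl ⟨0, by omega⟩)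
        (.inl ⟨k, hk⟩) := by
      intro k
      induction k with
      | zero => intro hk; exact SimpleGraph.Reachable.refl _
      | succ k ih =>
        intro hk
        refine (ih (by omega)).trans (SimpleGraph.Adj.reachable ?_)
        exact Or.inl rfl
    have hr2 : ∀ v, (H (g + 3)).Reachable (.inl ⟨0, by omega⟩) v := by
      rintro (i | t)
      · exact hr i.val i.isLt
      · refine (hr 1 (by omega)).trans (SimpleGraph.Adj.reachable ?_)
        rw [adj_lr]
        simp
    have : Nonempty (Fin (3 * (g + 3) + 1) ⊕ Fin (2 * (g + 3) - 1)) := ⟨.inl ⟨0, by omega⟩⟩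
    exact ⟨fun u v => (hr2 u).symm.trans (hr2 v)⟩
  · have hn : S.ncard = S1.ncard := le_antisymm (hS.2 S1 h1.1) (h1.2 S hS.1)
    rcases (classify (by omega) hS.1 (by omega)).2 with h6 | h6
    · exact Or.inl (pt_le h6)
    · right
      by_contra hcon
      exact h6 (pt (H (g + 3)) S) (by omega) (pt_mem hS.1)

end Pool.Agent.Results.MP_bfe17a_co.ArbitraryGaps
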